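import Pool.Agent.P.MP_f12eed_co.Cnf
import Pool.Agent.P.MP_f12eed_co.Pf

namespace Pool.Agent.P.MP_f12eed_co

open Pool.Agent.Lib.RUP

theorem check_cnf : check cnf pf = true := by decide +kernel

theorem cnf_unsat (x : ℕ → Bool) (hx : ∀ c ∈ cnf, c.Sat x) : False :=
  check_sound check_cnf x hx

end Pool.Agent.P.MP_f12eed_co
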