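import Mathlib
import Pool.Agent.Lib.RUP.Basic

/-!
The propositional encoding of a host graph on 8 vertices with at least 14 edges, in which
vertex 0 is adjacent to 1, 2, 3, 4, with an edge map that blocks the path with two edges.
-/

namespace Pool.Agent.P.MP_f12eed_co

open Pool.Agent.Lib.RUP

/-- variable: `ab` is an edge -/
def vh (a b : ℕ) : ℕ := 8 * min a b + max a b

/-- variable: `ab` is an edge and its image contains `c` -/
def vt (a b c : ℕ) : ℕ := 64 + 8 * vh a b + c

/-- variable: among the first `i` pairs at least `j` are non-edges -/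
def vs (i j : ℕ) : ℕ := 576 + 16 * i + j

/-- the pairs `a < b < 8` -/
def prs : List (ℕ × ℕ) :=
  (List.range 8).flatMap fun a => ((List.range 8).filter fun b => a < b).map fun b => (a, b)

/-- the variable of the `i`-th pair -/
def ev (i : ℕ) : ℕ := vh (prs.getD i (0, 0)).1 (prs.getD i (0, 0)).2

def cnf1 : List Clause :=
  prs.flatMap fun p => ((List.range 8).filter fun v => v ≠ p.1 ∧ v ≠ p.2).map fun v =>
    ([vt p.1 v p.2, vt v p.2 p.1], [vh p.1 v, vh v p.2])

def cnf2 : List Clause :=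
  prs.flatMap fun p => (prs.filter fun q => q.1 ≠ p.1 ∧ q.1 ≠ p.2 ∧ q.2 ≠ p.1 ∧ q.2 ≠ p.2).flatMap
    fun q => ((List.range 8).filter fun v => q.2 < v ∧ v ≠ p.1 ∧ v ≠ p.2).map fun v =>
      ([], [vt p.1 p.2 q.1, vt p.1 p.2 q.2, vt p.1 p.2 v])

def cnf3 : List Clause :=
  prs.flatMap fun p => (prs.filter fun q => q.1 ≠ p.1 ∧ q.1 ≠ p.2 ∧ q.2 ≠ p.1 ∧ q.2 ≠ p.2).map
    fun q => ([vh q.1 q.2], [vt p.1 p.2 q.1, vt p.1 p.2 q.2])

def cnf4 : List Clause := [([vh 0 1], []), ([vh 0 2], []), ([vh 0 3], []), ([vh 0 4], [])]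

def cnf5 : List Clause :=
  ((List.range 29).map fun i => ([vs i 0], [])) ++
  ((List.range 28).flatMap fun i => (List.range 16).map fun j => ([vs (i + 1) j], [vs i j])) ++
  ((List.range 28).flatMap fun i => (List.range 15).map fun j =>
    ([vs (i + 1) (j + 1), ev i], [vs i j])) ++
  [([], [vs 28 15])]

def cnf : List Clause := cnf1 ++ cnf2 ++ cnf3 ++ cnf4 ++ cnf5

end Pool.Agent.P.MP_f12eed_co
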