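import Mathlib
import Pool.Agent.P.MP_f12eed_co.Check

/-!
No graph on 8 vertices with at least 14 edges carries a hit relation that covers all paths with
two edges, with at most two hits per edge, two hits of one edge being adjacent.
-/

namespace Pool.Agent.P.MP_f12eed_co

open Pool.Agent.Lib.RUP

/-- A number as a vertex. -/
def fv (a : ℕ) : Fin 8 := ⟨a % 8, Nat.mod_lt _ (by norm_num)⟩

lemma fv_inj {a b : ℕ} (ha : a < 8) (hb : b < 8) (h : fv a = fv b) : a = b := by
  have := congrArg Fin.val h
  simp only [fv] at this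
  omega

lemma mem_prs {p : ℕ × ℕ} (h : p ∈ prs) : p.1 < p.2 ∧ p.2 < 8 := by
  revert p
  decide

/-- The conditions on the hit relation. -/
structure Hits (H : SimpleGraph (Fin 8)) (t : Sym2 (Fin 8) → Fin 8 → Prop) : Prop where
  cover : ∀ u v w, u ≠ w → H.Adj u v → H.Adj v w → t s(u, v) w ∨ t s(v, w) u
  two : ∀ e a b c, a ≠ b → a ≠ c → b ≠ c → t e a → t e b → t e c → False
  adj : ∀ e a b, a ≠ b → t e a → t e b → H.Adj a b

open Classical in
theorem star_false (H : SimpleGraph (Fin 8)) (t : Sym2 (Fin 8) → Fin 8 → Prop) (ht : Hits H t)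
    (h1 : H.Adj 0 1) (h2 : H.Adj 0 2) (h3 : H.Adj 0 3) (h4 : H.Adj 0 4)
    (hc : 14 ≤ H.edgeSet.ncard) : False := by
  let adjk : ℕ → Prop := fun k => H.Adj (fv (prs.getD k (0, 0)).1) (fv (prs.getD k (0, 0)).2)
  let cnt : ℕ → ℕ := fun i => ((Finset.range i).filter fun k => ¬ adjk k).card
  let x : ℕ → Bool := fun i =>
    if i < 64 then decide (H.Adj (fv (i / 8)) (fv i))
    else if i < 576 then decide (t s(fv (i / 64 - 1), fv (i / 8)) (fv i))
    else decide ((i - 576) % 16 ≤ cnt ((i - 576) / 16))
  have hxh : ∀ a b, a < 8 → b < 8 → x (vh a b) = decide (H.Adj (fv a) (fv b)) := by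
    intro a b ha hb
    have hlt : vh a b < 64 := by unfold vh; omega
    simp only [x, if_pos hlt]
    rcases le_total a b with h | h
    · have e1 : fv (vh a b / 8) = fv a := by
        apply Fin.ext; simp only [fv, vh, min_eq_left h, max_eq_right h]; omega
      have e2 : fv (vh a b) = fv b := by
        apply Fin.ext; simp only [fv, vh, min_eq_left h, max_eq_right h]; omega
      rw [e1, e2]
    · have e1 : fv (vh a b / 8) = fv b := by
        apply Fin.ext; simp only [fv, vh, min_eq_right h, max_eq_left h]; omega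
      have e2 : fv (vh a b) = fv a := by
        apply Fin.ext; simp only [fv, vh, min_eq_right h, max_eq_left h]; omega
      rw [e1, e2]
      simp only [H.adj_comm]
  have hxt : ∀ a b c, a < 8 → b < 8 → c < 8 → x (vt a b c) = decide (t s(fv a, fv b) (fv c)) := by
    intro a b c ha hb hc
    have hlt : ¬ vt a b c < 64 := by unfold vt; omega
    have hlt' : vt a b c < 576 := by unfold vt vh; omega
    simp only [x, if_neg hlt, if_pos hlt']
    have e3 : fv (vt a b c) = fv c := by apply Fin.ext; simp only [fv, vt, vh]; omega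
    rcases le_total a b with h | h
    · have e1 : fv (vt a b c / 64 - 1) = fv a := by
        apply Fin.ext; simp only [fv, vt, vh, min_eq_left h, max_eq_right h]; omega
      have e2 : fv (vt a b c / 8) = fv b := by
        apply Fin.ext; simp only [fv, vt, vh, min_eq_left h, max_eq_right h]; omega
      rw [e1, e2, e3]
    · have e1 : fv (vt a b c / 64 - 1) = fv b := by
        apply Fin.ext; simp only [fv, vt, vh, min_eq_right h, max_eq_left h]; omega
      have e2 : fv (vt a b c / 8) = fv a := by
        apply Fin.ext; simp only [fv, vt, vh, min_eq_right h, max_eq_left h]; omega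
      rw [e1, e2, e3, Sym2.eq_swap]
  have hxs : ∀ i j, j < 16 → x (vs i j) = decide (j ≤ cnt i) := by
    intro i j hj
    have hlt : ¬ vs i j < 64 := by unfold vs; omega
    have hlt' : ¬ vs i j < 576 := by unfold vs; omega
    simp only [x, if_neg hlt, if_neg hlt']
    have e1 : (vs i j - 576) % 16 = j := by unfold vs; omega
    have e2 : (vs i j - 576) / 16 = i := by unfold vs; omega
    rw [e1, e2]
  have hev : ∀ i, i < 28 → x (ev i) = decide (adjk i) := by
    intro i hi
    have : ∀ i < 28, (prs.getD i (0, 0)).1 < 8 ∧ (prs.getD i (0, 0)).2 < 8 := by decide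
    exact hxh _ _ (this i hi).1 (this i hi).2
  have hsucc : ∀ i, cnt (i + 1) = cnt i + if adjk i then 0 else 1 := by
    intro i
    simp only [cnt, Finset.range_add_one, Finset.filter_insert]
    by_cases h : adjk i
    · simp [h]
    · simp [h]
  have hcnt : cnt 28 ≤ 14 := by
    have e1 : ((Finset.range 28).filter adjk).card + cnt 28 = 28 := by
      have := Finset.card_filter_add_card_filter_not (s := Finset.range 28) adjk
      simpa using this
    have hall : ∀ a b : Fin 8, a ≠ b → ∃ k < 28,
        s(a, b) = s(fv (prs.getD k (0, 0)).1, fv (prs.getD k (0, 0)).2) := by decide +kernel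
    have hsub : H.edgeSet ⊆ ((((Finset.range 28).filter adjk).image fun k =>
        s(fv (prs.getD k (0, 0)).1, fv (prs.getD k (0, 0)).2) : Finset (Sym2 (Fin 8))) :
          Set (Sym2 (Fin 8))) := by
      intro e he
      induction e using Sym2.ind with
      | h a b =>
        obtain ⟨k, hk, hab⟩ := hall a b (H.ne_of_adj he)
        simp only [Finset.coe_image, Set.mem_image, Finset.mem_coe, Finset.mem_filter,
          Finset.mem_range]
        refine ⟨k, ⟨hk, ?_⟩, hab.symm⟩
        rw [hab] at he
        exact he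
    have e2 := Set.ncard_le_ncard hsub (Finset.finite_toSet _)
    rw [Set.ncard_coe_finset] at e2
    have e3 := e2.trans Finset.card_image_le
    omega
  apply cnf_unsat x
  intro c hc
  simp only [cnf, List.mem_append] at hc
  rcases hc with (((hc | hc) | hc) | hc) | hc
  · simp only [cnf1, List.mem_flatMap, List.mem_map, List.mem_filter, List.mem_range,
      decide_eq_true_eq] at hc
    obtain ⟨p, hp, v, ⟨hv, -⟩, rfl⟩ := hc
    obtain ⟨hp1, hp2⟩ := mem_prs hp
    have hp3 : p.1 < 8 := by omega
    simp only [Clause.Sat, List.mem_cons, List.not_mem_nil, or_false, exists_eq_or_imp,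
      exists_eq_left, hxh _ _ hp3 hv, hxh _ _ hv hp2, hxt _ _ _ hp3 hv hp2, hxt _ _ _ hv hp2 hp3,
      decide_eq_true_eq, decide_eq_false_iff_not]
    have hne : fv p.1 ≠ fv p.2 := fun h => by have := fv_inj hp3 hp2 h; omega
    have := ht.cover _ (fv v) _ hne
    tauto
  · simp only [cnf2, List.mem_flatMap, List.mem_map, List.mem_filter, List.mem_range,
      decide_eq_true_eq] at hc
    obtain ⟨p, hp, q, ⟨hq, -⟩, v, ⟨hv, hqv, -⟩, rfl⟩ := hc
    obtain ⟨hp1, hp2⟩ := mem_prs hp
    obtain ⟨hq1, hq2⟩ := mem_prs hq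
    have hp3 : p.1 < 8 := by omega
    have hq3 : q.1 < 8 := by omega
    simp only [Clause.Sat, List.mem_cons, List.not_mem_nil, or_false, exists_eq_or_imp,
      exists_eq_left, hxt _ _ _ hp3 hp2 hq3, hxt _ _ _ hp3 hp2 hq2, hxt _ _ _ hp3 hp2 hv,
      decide_eq_false_iff_not]
    have := ht.two s(fv p.1, fv p.2) (fv q.1) (fv q.2) (fv v)
      (fun h => by have := fv_inj hq3 hq2 h; omega) (fun h => by have := fv_inj hq3 hv h; omega)
      (fun h => by have := fv_inj hq2 hv h; omega)
    tauto
  · simp only [cnf3, List.mem_flatMap, List.mem_map, List.mem_filter] at hc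
    obtain ⟨p, hp, q, ⟨hq, -⟩, rfl⟩ := hc
    obtain ⟨hp1, hp2⟩ := mem_prs hp
    obtain ⟨hq1, hq2⟩ := mem_prs hq
    have hp3 : p.1 < 8 := by omega
    have hq3 : q.1 < 8 := by omega
    simp only [Clause.Sat, List.mem_cons, List.not_mem_nil, or_false, exists_eq_or_imp,
      exists_eq_left, hxt _ _ _ hp3 hp2 hq3, hxt _ _ _ hp3 hp2 hq2, hxh _ _ hq3 hq2,
      decide_eq_true_eq, decide_eq_false_iff_not]
    have := ht.adj s(fv p.1, fv p.2) (fv q.1) (fv q.2)
      (fun h => by have := fv_inj hq3 hq2 h; omega)
    tauto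
  · simp only [cnf4, List.mem_cons, List.not_mem_nil, or_false] at hc
    rcases hc with rfl | rfl | rfl | rfl
    · exact Or.inl ⟨_, List.mem_singleton.2 rfl, by
        rw [hxh _ _ (by norm_num) (by norm_num)]; exact decide_eq_true h1⟩
    · exact Or.inl ⟨_, List.mem_singleton.2 rfl, by
        rw [hxh _ _ (by norm_num) (by norm_num)]; exact decide_eq_true h2⟩
    · exact Or.inl ⟨_, List.mem_singleton.2 rfl, by
        rw [hxh _ _ (by norm_num) (by norm_num)]; exact decide_eq_true h3⟩
    · exact Or.inl ⟨_, List.mem_singleton.2 rfl, by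
        rw [hxh _ _ (by norm_num) (by norm_num)]; exact decide_eq_true h4⟩
  · simp only [cnf5, List.mem_append, List.mem_flatMap, List.mem_map, List.mem_range,
      List.mem_singleton] at hc
    rcases hc with ((⟨i, -, rfl⟩ | ⟨i, -, j, hj, rfl⟩) | ⟨i, hi, j, hj, rfl⟩) | rfl
    · simp [Clause.Sat, hxs i 0 (by norm_num)]
    · simp only [Clause.Sat, List.mem_cons, List.not_mem_nil, or_false,
        exists_eq_left, hxs _ _ hj, decide_eq_true_eq, decide_eq_false_iff_not, hsucc]
      omega
    · simp only [Clause.Sat, List.mem_cons, List.not_mem_nil, or_false, exists_eq_or_imp,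
        exists_eq_left, hxs _ _ (show j < 16 by omega), hxs _ _ (show j + 1 < 16 by omega),
        hev i hi, decide_eq_true_eq, decide_eq_false_iff_not, hsucc]
      by_cases h : adjk i
      · exact Or.inl (Or.inr h)
      · simp only [h, if_false, or_false]
        omega
    · simp only [Clause.Sat, List.mem_cons, List.not_mem_nil, or_false,
        exists_eq_left, hxs 28 15 (by norm_num), decide_eq_false_iff_not]
      right
      omega

open Classical in
theorem hits_false (H : SimpleGraph (Fin 8)) (t : Sym2 (Fin 8) → Fin 8 → Prop) (ht : Hits H t)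
    (hc : 14 ≤ H.edgeSet.ncard) : False := by
  have hdeg : ∃ v, 4 ≤ H.degree v := by
    by_contra hn
    push Not at hn
    have h1 := H.sum_degrees_eq_twice_card_edges
    have h2 : ∑ v, H.degree v ≤ ∑ _v : Fin 8, 3 :=
      Finset.sum_le_sum fun v _ => Nat.le_of_lt_succ (hn v)
    have h3 : H.edgeFinset.card = H.edgeSet.ncard := by
      rw [← Set.ncard_coe_finset, SimpleGraph.coe_edgeFinset]
    simp at h2
    omega
  obtain ⟨v, hv⟩ := hdeg
  have hcard : Fintype.card (Fin 4) ≤ Fintype.card (H.neighborSet v) := by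
    rw [H.card_neighborSet_eq_degree]; simpa using hv
  obtain ⟨g⟩ := Function.Embedding.nonempty_of_card_le hcard
  let g' : Fin 5 → Fin 8 := Fin.cons v fun i => (g i).1
  have hg' : Function.Injective g' := by
    rw [Fin.cons_injective_iff]
    constructor
    · rintro ⟨i, hi⟩
      exact H.ne_of_adj (g i).2 hi.symm
    · exact Subtype.val_injective.comp g.injective
  obtain ⟨σ, hσ⟩ := Equiv.Perm.exists_extending_pair (f := Fin.castLE (show 5 ≤ 8 by norm_num))
    (g := g') (Fin.castLE_injective _) hg'
  have hadj : ∀ i : Fin 4, H.Adj (σ 0) (σ (Fin.castLE (by norm_num) i.succ)) := by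
    intro i
    have e0 : σ 0 = v := hσ 0
    rw [e0, hσ i.succ]
    exact (g i).2
  refine star_false (H.comap σ) (fun e c => t (e.map σ) (σ c)) ⟨?_, ?_, ?_⟩
    (hadj 0) (hadj 1) (hadj 2) (hadj 3) ?_
  · intro u v w huw h1 h2
    exact ht.cover _ _ _ (σ.injective.ne huw) h1 h2
  · intro e a b c hab hac hbc
    exact ht.two _ _ _ _ (σ.injective.ne hab) (σ.injective.ne hac) (σ.injective.ne hbc)
  · intro e a b hab h1 h2
    exact ht.adj _ _ _ (σ.injective.ne hab) h1 h2
  · have := Nat.card_congr (SimpleGraph.Iso.comap σ H).mapEdgeSet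
    simp only [Nat.card_coe_set_eq] at this
    exact this ▸ hc

end Pool.Agent.P.MP_f12eed_co
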